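import Pool.Agent.H69.XT.MainE

open MeasureTheory ProbabilityTheory
open scoped BigOperators

namespace Pool.Agent.Results.MP_634cec_lc.ExactDegree

open Pool.Agent.Results.MP_634cec_lc.LinearDegree
open H69.XT (SumOnPairs Dens kl m2 thr thrInf cub trunc rate)

/-- The mean of `f` changes between the signal strengths `0` and `lam` by at most `√C` null standard
deviations, and if `f` is a test with values in `[0, 1]` its total error is at least
`1 / (4 C)`. -/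
def Fails {G : Type} [Group G] [MeasurableSpace G] (μ : Measure G) {L n : ℕ} {d : Fin L → ℕ}
    (ρ : ∀ k : Fin L, G →* Matrix.unitaryGroup (Fin (d k)) ℂ) (lam C : ℝ)
    (f : (Coord n d → ℝ) → ℝ) : Prop :=
  (Integrable (fun ω => f (data ρ lam ω)) (law μ n d) ∧
    ((∫ ω, f (data ρ lam ω) ∂(law μ n d)) - ∫ ω, f (data ρ 0 ω) ∂(law μ n d)) ^ 2 ≤
      C * Var[fun ω => f (data ρ 0 ω); law μ n d]) ∧
  ((∀ y, 0 ≤ f y) → (∀ y, f y ≤ 1) → 1 / (4 * C) ≤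
    (∫ ω, f (data ρ 0 ω) ∂(law μ n d)) + (1 - ∫ ω, f (data ρ lam ω) ∂(law μ n d)))

/-- **The exact low-degree threshold at linear degree.** -/
theorem result :
    (∀ (L : ℕ) (d : Fin L → ℕ), (∃ k, 0 < d k) → ∀ (G : Type) [Group G] [TopologicalSpace G]
      [IsTopologicalGroup G] [CompactSpace G] [MeasurableSpace G] [BorelSpace G] (μ : Measure G)
      [μ.IsHaarMeasure] [IsProbabilityMeasure μ]
      (ρ : ∀ k : Fin L, G →* Matrix.unitaryGroup (Fin (d k)) ℂ), Admissible ρ →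
      (∀ c : ℝ, 0 < c → ∀ lam : ℝ, 0 < lam →
        -- below the threshold all sums of functions of at most `c n` entries fail
        (lam ^ 2 < thr μ ρ c → ∃ C : ℝ, 1 ≤ C ∧ ∀ n D : ℕ, (D : ℝ) ≤ c * n →
          ∀ f : (Coord n d → ℝ) → ℝ, SumOnPairs μ ρ D f → Fails μ ρ lam C f) ∧
        -- the exponent is positive exactly above the threshold
        0 ≤ rate μ ρ lam c ∧ (rate μ ρ lam c = 0 ↔ lam ^ 2 ≤ thr μ ρ c) ∧
        -- it is the exact exponent, reached by polynomials of degree at most `c n`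
        (∀ ε : ℝ, 0 < ε → ∃ N : ℕ, ∀ n ≥ N,
          (∀ D : ℕ, (D : ℝ) ≤ c * n → ∀ f : (Coord n d → ℝ) → ℝ, SumOnPairs μ ρ D f →
            Fails μ ρ lam (Real.exp ((rate μ ρ lam c + ε) * n)) f) ∧
          (lam ^ 2 * ∑ k, (d k : ℝ) ^ 2 ≤ c → ∀ f : (Coord n d → ℝ) → ℝ, Measurable f →
            MemLp (fun ω => f (data ρ 0 ω)) 2 (law μ n d) →
            Fails μ ρ lam (Real.exp ((rate μ ρ lam c + ε) * n)) f) ∧
          (thr μ ρ c < lam ^ 2 →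
            ∃ p : MvPolynomial (Coord n d) ℝ, (p.totalDegree : ℝ) ≤ c * n ∧
              0 < Var[fun ω => MvPolynomial.eval (data ρ 0 ω) p; law μ n d] ∧
              Real.exp ((rate μ ρ lam c - ε) * n) *
                  Var[fun ω => MvPolynomial.eval (data ρ 0 ω) p; law μ n d] ≤
                ((∫ ω, MvPolynomial.eval (data ρ lam ω) p ∂(law μ n d)) -
                  ∫ ω, MvPolynomial.eval (data ρ 0 ω) p ∂(law μ n d)) ^ 2))) ∧
      (∀ (n D : ℕ) (p : MvPolynomial (Coord n d) ℝ), p.totalDegree ≤ D →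
        SumOnPairs μ ρ D fun y => MvPolynomial.eval y p) ∧
      -- the threshold is continuous, nonincreasing, and tends to one as `c` tends to zero, with
      -- the exact first term
      ContinuousOn (thr μ ρ) (Set.Ioi 0) ∧ AntitoneOn (thr μ ρ) (Set.Ioi 0) ∧
      (∀ c : ℝ, 0 < c → 1 - Real.sqrt ((∑ k, (d k : ℝ) ^ 2) * c) ≤ thr μ ρ c ∧ thr μ ρ c ≤ 1) ∧
      (∃ B c0 : ℝ, 0 < c0 ∧ ∀ c : ℝ, 0 < c → c ≤ c0 →
        |1 - thr μ ρ c - 4 / 3 * cub μ ρ * Real.sqrt c| ≤ B * c) ∧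
      cub μ ρ ≤ Real.sqrt (∑ k, (d k : ℝ) ^ 2) / 2 ∧
      -- it is constant from `c = ∑ k, (d k)^2` on, and below this value every function fails
      (∀ c : ℝ, ∑ k, (d k : ℝ) ^ 2 ≤ c → thr μ ρ c = thrInf μ ρ) ∧
      (∀ lam : ℝ, 0 ≤ lam → lam ^ 2 < thrInf μ ρ → ∃ C : ℝ, 1 ≤ C ∧
        ∀ (n : ℕ) (f : (Coord n d → ℝ) → ℝ), Measurable f →
          MemLp (fun ω => f (data ρ 0 ω)) 2 (law μ n d) → Fails μ ρ lam C f)) ∧
    -- frequencies `1, .., L` of a character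
    (∀ L : ℕ, 2 ≤ L → ∀ (G : Type) [Group G] [TopologicalSpace G] [IsTopologicalGroup G]
      [CompactSpace G] [MeasurableSpace G] [BorelSpace G] (μ : Measure G) [μ.IsHaarMeasure]
      [IsProbabilityMeasure μ] (ρ : ∀ _ : Fin L, G →* Matrix.unitaryGroup (Fin 1) ℂ) (χ : G → ℂ),
      (∀ k g, (ρ k g : Matrix (Fin 1) (Fin 1) ℂ) 0 0 = χ g ^ ((k : ℕ) + 1)) →
      Admissible (d := fun _ : Fin L => 1) ρ →
      (∀ s : ℝ, 0 < s → 176 * s ≤ 1 →
        thr (d := fun _ : Fin L => 1) μ ρ (64 * s ^ 2 / L) < 1 - s) ∧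
      3 * ((L : ℝ) - 1) / (8 * Real.sqrt L) ≤ cub (d := fun _ : Fin L => 1) μ ρ ∧
      thrInf (d := fun _ : Fin L => 1) μ ρ ≤ 5 * Real.log (L + 1) / L) ∧
    (∀ ε : ℝ, 0 < ε → ∃ (L0 : ℕ) (C : ℝ), 0 < C ∧ ∀ L ≥ L0, ∀ s : ℝ, 0 < s → s ≤ 1 - ε →
      ∀ (G : Type) [Group G] [TopologicalSpace G] [IsTopologicalGroup G] [CompactSpace G]
      [MeasurableSpace G] [BorelSpace G] (μ : Measure G) [μ.IsHaarMeasure]
      [IsProbabilityMeasure μ] (ρ : ∀ _ : Fin L, G →* Matrix.unitaryGroup (Fin 1) ℂ) (χ : G → ℂ),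
      (∀ k g, (ρ k g : Matrix (Fin 1) (Fin 1) ℂ) 0 0 = χ g ^ ((k : ℕ) + 1)) →
      Admissible (d := fun _ : Fin L => 1) ρ →
      thr (d := fun _ : Fin L => 1) μ ρ (C * s ^ 2 / L) < 1 - s) := by
  refine ⟨fun L d hK G _ _ _ _ _ _ μ _ _ ρ hρ => ⟨fun c hc lam h0 => ⟨fun h => ?_,
    H69.XT.rate_nonneg μ hρ lam hc, ?_, fun ε hε => ?_⟩,
    fun n D p hp => H69.XT.SumOnPairs.poly p hp, H69.XT.thr_cont μ hρ hK,
    H69.XT.thr_anti μ hρ hK, ?_, ?_, ?_, ?_, ?_⟩, ?_, ?_⟩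
  · obtain ⟨C, hC1, hC⟩ := H69.XT.below_pairs μ hρ hK hc h
    exact ⟨C, hC1, fun n D hD f hf => ⟨(hC n D hD).1 f hf, (hC n D hD).2 f hf⟩⟩
  · rw [← not_lt, ← H69.XT.rate_pos_iff μ hρ hK hc, not_lt]
    exact ⟨fun h => h.le, fun h => le_antisymm h (H69.XT.rate_nonneg μ hρ lam hc)⟩
  · obtain ⟨N1, hN1⟩ := H69.XT.rate_pairs μ hρ h0 hc hε
    by_cases hcK : lam ^ 2 * ∑ k, (d k : ℝ) ^ 2 ≤ c
    · obtain ⟨N2, hN2⟩ := H69.XT.rate_all μ hρ hK h0 hcK hε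
      by_cases hthr : thr μ ρ c < lam ^ 2
      · obtain ⟨N3, hN3⟩ := H69.XT.above_rate μ hρ hK h0.le hc hthr hε
        refine ⟨max N1 (max N2 N3), fun n hn => ⟨fun D hD f hf => ?_, fun _ f hf hf2 => ?_,
          fun _ => ?_⟩⟩
        · exact hN1 n ((le_max_left _ _).trans hn) D hD f hf
        · exact hN2 n (((le_max_left _ _).trans (le_max_right _ _)).trans hn) f hf hf2
        · exact hN3 n (((le_max_right _ _).trans (le_max_right _ _)).trans hn)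
      · refine ⟨max N1 N2, fun n hn => ⟨fun D hD f hf => ?_, fun _ f hf hf2 => ?_,
          fun h => absurd h hthr⟩⟩
        · exact hN1 n ((le_max_left _ _).trans hn) D hD f hf
        · exact hN2 n ((le_max_right _ _).trans hn) f hf hf2
    · by_cases hthr : thr μ ρ c < lam ^ 2
      · obtain ⟨N3, hN3⟩ := H69.XT.above_rate μ hρ hK h0.le hc hthr hε
        refine ⟨max N1 N3, fun n hn => ⟨fun D hD f hf => ?_, fun h => absurd h hcK,
          fun _ => ?_⟩⟩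
        · exact hN1 n ((le_max_left _ _).trans hn) D hD f hf
        · exact hN3 n ((le_max_right _ _).trans hn)
      · exact ⟨N1, fun n hn => ⟨fun D hD f hf => hN1 n hn D hD f hf, fun h => absurd h hcK,
          fun h => absurd h hthr⟩⟩
  · exact fun c hc => ⟨H69.XT.thr_ge μ hρ hK hc, H69.XT.thr_le_one μ hρ hK hc⟩
  · exact H69.XT.asyM μ hρ hK
  · exact H69.XT.cub_le μ hρ
  · exact fun c hc => H69.XT.thr_eq μ hρ hK hc
  · intro lam _ h
    obtain ⟨C, hC1, hC⟩ := H69.XT.below_inf μ hρ h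
    exact ⟨C, hC1, fun n f hf hf2 => hC n f hf hf2⟩
  · intro L hL G _ _ _ _ _ _ μ _ _ ρ χ hχ hρ
    exact ⟨fun s h0 h1 => H69.XT.thr_one μ ρ χ hL hχ hρ h0 h1,
      H69.XT.cub_char μ (by omega) ρ χ hχ hρ, H69.XT.thrInf_char μ ρ χ (by omega) hχ hρ⟩
  · intro ε hε
    obtain ⟨L0, C, hC, h⟩ := H69.XT.thr_all hε
    exact ⟨L0, C, hC, fun L hL s h0 h1 G _ _ _ _ _ _ μ _ _ ρ χ hχ hρ =>
      h L hL s h0 h1 G μ ρ χ hχ hρ⟩

end Pool.Agent.Results.MP_634cec_lc.ExactDegree
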