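import Mathlib
import Pool.Agent.H28.LinearDegreeModel
import Pool.Agent.H47.LV.Main

open MeasureTheory ProbabilityTheory
open scoped BigOperators

namespace Pool.Agent.Results.MP_634cec_lc.FewRows

open Pool.Agent.Results.MP_634cec_lc.LinearDegree

/-- `F` depends only on the entries in the rows and columns of the vertices of `S` (in all
observations): on the entries whose pair of vertices meets `S`. -/
def OnRows {L n : ℕ} {d : Fin L → ℕ} (S : Finset (Fin n)) (F : (Coord n d → ℝ) → ℝ) : Prop :=
  ∀ y y' : Coord n d → ℝ, (∀ c, c.2.1.1 ∈ S ∨ c.2.2.1.1 ∈ S → y c = y' c) → F y = F y'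

/-- `f` is a sum of functions each of which depends only on the rows and columns of at most `D`
vertices (arbitrary terms for all sets of at most `D` vertices) and has a finite second moment in
the null model. -/
def SumOnRows {G : Type} [Group G] [MeasurableSpace G] (μ : Measure G) {L n : ℕ}
    {d : Fin L → ℕ} (ρ : ∀ k : Fin L, G →* Matrix.unitaryGroup (Fin (d k)) ℂ) (D : ℕ)
    (f : (Coord n d → ℝ) → ℝ) : Prop :=
  ∃ F : Finset (Fin n) → (Coord n d → ℝ) → ℝ,
    (∀ S, Measurable (F S) ∧ OnRows S (F S) ∧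
      MemLp (fun ω => F S (data ρ 0 ω)) 2 (law μ n d)) ∧
    ∀ y, f y = ∑ S with S.card ≤ D, F S y

/-- Adaptive exploration of rows: on the data `y` the rows and columns of the vertices in `A y`,
at most `D` vertices, are read. If `y'` agrees with `y` on these rows and columns, then the same
vertices are chosen on `y'`, and `f` takes the same value. (This is the case if the vertices are
chosen one after the other, each choice, the decision to stop and the value of `f` depending only
on the rows and columns read before.) -/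
structure Exploration {L n : ℕ} {d : Fin L → ℕ} (D : ℕ)
    (A : (Coord n d → ℝ) → Finset (Fin n)) (f : (Coord n d → ℝ) → ℝ) : Prop where
  measurable : ∀ S, MeasurableSet {y | A y = S}
  card_le : ∀ y, (A y).card ≤ D
  stop : ∀ y y', (∀ c, c.2.1.1 ∈ A y ∨ c.2.2.1.1 ∈ A y → y c = y' c) → A y' = A y ∧ f y' = f y

section proof

open Pool.Agent.H47.LV
open Pool.Agent.H70.SS (gam symm data_symm measurable_symm null_eq final_ineq)

variable {G : Type} [Group G] [MeasurableSpace G] (μ : Measure G) [IsProbabilityMeasure μ]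
  {L n : ℕ} {d : Fin L → ℕ} (ρ : ∀ k : Fin L, G →* Matrix.unitaryGroup (Fin (d k)) ℂ)

omit [MeasurableSpace G] in
theorem data_null (ω : (Fin n → G) × (Coord n d → ℝ)) : data ρ 0 ω = symm ω.2 := by
  rw [data_symm, shift_zero, zero_add]

/-- square integrability in the null model, in the coordinates of the noise -/
theorem memLp_null_iff {F : (Coord n d → ℝ) → ℝ} (hF : Measurable F) :
    MemLp (fun ω => F (data ρ 0 ω)) 2 (law μ n d) ↔
      MemLp (fun z => F (symm z)) 2 (gam (Coord n d)) := by
  simp_rw [data_null]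
  have h1 : MeasurePreserving (Prod.snd : (Fin n → G) × (Coord n d → ℝ) → Coord n d → ℝ)
      (law μ n d) (gam (Coord n d)) := measurePreserving_snd
  have h2 : Measurable fun z : Coord n d → ℝ => F (symm z) := hF.comp measurable_symm
  rw [← h1.map_eq]
  exact (memLp_map_measure_iff h2.aestronglyMeasurable measurable_snd.aemeasurable).symm

variable {μ ρ}

omit [IsProbabilityMeasure μ] in
theorem SumOnRows.single {D : ℕ} {S : Finset (Fin n)} (hS : S.card ≤ D)
    {F : (Coord n d → ℝ) → ℝ} (hF : Measurable F) (hloc : OnRows S F)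
    (hF2 : MemLp (fun ω => F (data ρ 0 ω)) 2 (law μ n d)) : SumOnRows μ ρ D F := by
  classical
  refine ⟨fun T => if T = S then F else 0, fun T => ?_, fun y => ?_⟩
  · by_cases h : T = S
    · subst h
      simp only [if_true]
      exact ⟨hF, hloc, hF2⟩
    · simp only [h, if_false]
      exact ⟨measurable_const, fun _ _ _ => rfl, MemLp.zero⟩
  · rw [Finset.sum_eq_single S]
    · simp
    · intro T _ hT
      simp [hT]
    · intro h
      exact absurd (by simpa using hS) h

omit [IsProbabilityMeasure μ] in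
theorem SumOnRows.sum {D : ℕ} {ι : Type*} (s : Finset ι) {f : ι → (Coord n d → ℝ) → ℝ}
    (hf : ∀ i ∈ s, SumOnRows μ ρ D (f i)) : SumOnRows μ ρ D fun y => ∑ i ∈ s, f i y := by
  classical
  have h : ∀ i, ∃ F : Finset (Fin n) → (Coord n d → ℝ) → ℝ, i ∈ s →
      (∀ S, Measurable (F S) ∧ OnRows S (F S) ∧
        MemLp (fun ω => F S (data ρ 0 ω)) 2 (law μ n d)) ∧
      ∀ y, f i y = ∑ S with S.card ≤ D, F S y := by
    intro i
    by_cases hi : i ∈ s
    · obtain ⟨F, hF⟩ := hf i hi
      exact ⟨F, fun _ => hF⟩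
    · exact ⟨0, fun h => absurd h hi⟩
  choose F hF using h
  refine ⟨fun S y => ∑ i ∈ s, F i S y, fun S => ⟨?_, ?_, ?_⟩, fun y => ?_⟩
  · exact Finset.measurable_sum _ fun i hi => ((hF i hi).1 S).1
  · intro y y' h
    exact Finset.sum_congr rfl fun i hi => ((hF i hi).1 S).2.1 y y' h
  · exact memLp_finsetSum _ fun i hi => ((hF i hi).1 S).2.2
  · rw [Finset.sum_comm]
    exact Finset.sum_congr rfl fun i hi => (hF i hi).2 y

omit [IsProbabilityMeasure μ] in
theorem SumOnRows.exploration {D : ℕ} {f : (Coord n d → ℝ) → ℝ} (hf : Measurable f)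
    (hf2 : MemLp (fun ω => f (data ρ 0 ω)) 2 (law μ n d))
    {A : (Coord n d → ℝ) → Finset (Fin n)} (hA : Exploration D A f) : SumOnRows μ ρ D f := by
  classical
  have hm : ∀ S, Measurable fun y => if A y = S then f y else 0 := fun S =>
    Measurable.ite (hA.measurable S) hf measurable_const
  have hd : Measurable fun ω : (Fin n → G) × (Coord n d → ℝ) => data ρ 0 ω := by
    simp_rw [data_null]
    exact measurable_symm.comp measurable_snd
  refine ⟨fun S y => if A y = S then f y else 0, fun S => ⟨hm S, ?_, ?_⟩, fun y => ?_⟩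
  · intro y y' h
    show (if A y = S then f y else 0) = if A y' = S then f y' else 0
    by_cases h1 : A y = S
    · subst h1
      obtain ⟨h2, h3⟩ := hA.stop y y' h
      rw [h2, h3]
    · by_cases h4 : A y' = S
      · subst h4
        obtain ⟨h2, h3⟩ := hA.stop y' y fun c hc => (h c hc).symm
        exact absurd h2 h1
      · rw [if_neg h1, if_neg h4]
  · refine hf2.mono ((hm S).comp hd).aestronglyMeasurable (ae_of_all _ fun ω => ?_)
    show ‖(if A (data ρ 0 ω) = S then f (data ρ 0 ω) else 0)‖ ≤ ‖f (data ρ 0 ω)‖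
    split_ifs
    · exact le_rfl
    · rw [norm_zero]
      exact norm_nonneg _
  · rw [Finset.sum_eq_single (A y)]
    · simp
    · intro S _ hS
      exact if_neg (Ne.symm hS)
    · intro h
      exact absurd (by simpa using hA.card_le y) h

omit [IsProbabilityMeasure μ] in
theorem SumOnRows.measurable {D : ℕ} {f : (Coord n d → ℝ) → ℝ} (hf : SumOnRows μ ρ D f) :
    Measurable f := by
  obtain ⟨F, hF, hsum⟩ := hf
  have h : f = fun y => ∑ S with S.card ≤ D, F S y := funext hsum
  rw [h]
  exact Finset.measurable_sum _ fun S _ => (hF S).1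

omit [IsProbabilityMeasure μ] in
theorem SumOnRows.memLp {D : ℕ} {f : (Coord n d → ℝ) → ℝ} (hf : SumOnRows μ ρ D f) :
    MemLp (fun ω => f (data ρ 0 ω)) 2 (law μ n d) := by
  obtain ⟨F, hF, hsum⟩ := hf
  have h : f = fun y => ∑ S with S.card ≤ D, F S y := funext hsum
  rw [h]
  exact memLp_finsetSum _ fun S _ => (hF S).2.2

/-- polynomials in the entries have a finite second moment in the null model -/
theorem memLp_poly (p : MvPolynomial (Coord n d) ℝ) :
    MemLp (fun ω => MvPolynomial.eval (data ρ 0 ω) p) 2 (law μ n d) := by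
  have h1 : ∀ q : MvPolynomial (Coord n d) ℝ,
      Integrable (fun ω => MvPolynomial.eval (data ρ 0 ω) q) (law μ n d) := by
    intro q
    have h := Pool.Agent.H28.GaussLowDeg.integrable_eval_shift
      (P := Measure.pi fun _ : Fin n => μ) (X := fun (_ : Fin n → G) (_ : Coord n d) => (0 : ℝ))
      (fun _ => measurable_const) 0 (fun _ _ => by simp) (MvPolynomial.bind₁ lin q)
    refine h.congr (ae_of_all _ fun ω => ?_)
    show _ = MvPolynomial.eval (data ρ 0 ω) q
    rw [eval_data, shift_zero]
    rfl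
  rw [memLp_two_iff_integrable_sq (h1 p).aestronglyMeasurable]
  refine (h1 (p ^ 2)).congr (ae_of_all _ fun ω => ?_)
  show MvPolynomial.eval (data ρ 0 ω) (p ^ 2) = MvPolynomial.eval (data ρ 0 ω) p ^ 2
  rw [map_pow]

/-- one vertex of each entry of a monomial -/
def vtx (m : Coord n d →₀ ℕ) : Finset (Fin n) := m.support.image fun c => c.2.1.1

theorem card_vtx_le (m : Coord n d →₀ ℕ) : (vtx m).card ≤ m.degree := by
  unfold vtx
  refine Finset.card_image_le.trans ?_
  calc m.support.card = ∑ c ∈ m.support, 1 := by simp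
    _ ≤ ∑ c ∈ m.support, m c :=
        Finset.sum_le_sum fun c hc => Nat.one_le_iff_ne_zero.2 (Finsupp.mem_support_iff.1 hc)
    _ = m.degree := rfl

/-- a bounded function of the rows of `S` times a polynomial -/
theorem SumOnRows.mul_poly {D : ℕ} {S : Finset (Fin n)} {F : (Coord n d → ℝ) → ℝ}
    (hF : Measurable F) (hloc : OnRows S F) {B : ℝ} (hB : ∀ y, |F y| ≤ B)
    (p : MvPolynomial (Coord n d) ℝ) (hS : S.card + p.totalDegree ≤ D) :
    SumOnRows μ ρ D fun y => F y * MvPolynomial.eval y p := by
  classical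
  have h1 : (fun y => F y * MvPolynomial.eval y p) = fun y => ∑ m ∈ p.support,
      F y * MvPolynomial.eval y (MvPolynomial.monomial m (p.coeff m)) := by
    funext y
    rw [← Finset.mul_sum, ← map_sum, ← MvPolynomial.as_sum]
  rw [h1]
  refine SumOnRows.sum _ fun m hm => ?_
  have hd : Measurable fun ω : (Fin n → G) × (Coord n d → ℝ) => data ρ 0 ω := by
    simp_rw [data_null]
    exact measurable_symm.comp measurable_snd
  have hpm : Measurable fun y : Coord n d → ℝ =>
      MvPolynomial.eval y (MvPolynomial.monomial m (p.coeff m)) :=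
    (MvPolynomial.continuous_eval _).measurable
  refine SumOnRows.single (S := S ∪ vtx m) ?_ (hF.mul hpm) ?_ ?_
  · have h2 := card_vtx_le m
    have h3 : m.degree ≤ p.totalDegree := MvPolynomial.le_totalDegree hm
    have h4 := Finset.card_union_le S (vtx m)
    omega
  · intro y y' h
    have h2 : F y = F y' := hloc y y' fun c hc =>
      h c (hc.imp (Finset.mem_union_left _) (Finset.mem_union_left _))
    have h3 : MvPolynomial.eval y (MvPolynomial.monomial m (p.coeff m)) =
        MvPolynomial.eval y' (MvPolynomial.monomial m (p.coeff m)) := by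
      rw [MvPolynomial.eval_monomial, MvPolynomial.eval_monomial]
      congr 1
      refine Finsupp.prod_congr fun c hc => ?_
      rw [h c (Or.inl (Finset.mem_union_right _ (Finset.mem_image_of_mem _ hc)))]
    show F y * _ = F y' * _
    rw [h2, h3]
  · refine (memLp_poly (ρ := ρ) (μ := μ) (MvPolynomial.monomial m (p.coeff m))).of_le_mul
      (c := B) ((hF.comp hd).mul (hpm.comp hd)).aestronglyMeasurable (ae_of_all _ fun ω => ?_)
    show ‖F (data ρ 0 ω) * _‖ ≤ B * ‖_‖
    rw [norm_mul]
    exact mul_le_mul_of_nonneg_right (hB _) (norm_nonneg _)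

end proof

open Pool.Agent.H47.LV Pool.Agent.H70.SS in
/-- **Sums of functions of a small linear number of rows do not detect the signal below the
spectral threshold.** -/
theorem result (L : ℕ) (d : Fin L → ℕ) (lam : ℝ) (h0 : 0 ≤ lam) (h1 : lam < 1) :
    ∃ c C ε : ℝ, 0 < c ∧ 0 < ε ∧ ∀ (G : Type) [Group G] [TopologicalSpace G]
      [IsTopologicalGroup G] [CompactSpace G] [MeasurableSpace G] [BorelSpace G] (μ : Measure G)
      [μ.IsHaarMeasure] [IsProbabilityMeasure μ]
      (ρ : ∀ k : Fin L, G →* Matrix.unitaryGroup (Fin (d k)) ℂ), Admissible ρ →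
      ∀ n D : ℕ, (D : ℝ) ≤ c * n →
      -- no function of the class distinguishes the two models by mean and variance
      (∀ f, SumOnRows μ ρ D f → Integrable (fun ω => f (data ρ lam ω)) (law μ n d) ∧
        ((∫ ω, f (data ρ lam ω) ∂(law μ n d)) - ∫ ω, f (data ρ 0 ω) ∂(law μ n d)) ^ 2 ≤
          C * Var[fun ω => f (data ρ 0 ω); law μ n d]) ∧
      -- tests in the class have a total error bounded away from zero
      (∀ φ, SumOnRows μ ρ D φ → (∀ y, 0 ≤ φ y) → (∀ y, φ y ≤ 1) →
        ε ≤ (∫ ω, φ (data ρ 0 ω) ∂(law μ n d)) + (1 - ∫ ω, φ (data ρ lam ω) ∂(law μ n d))) ∧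
      -- the class contains the results of adaptive explorations of at most `D` rows
      (∀ f A, Measurable f → MemLp (fun ω => f (data ρ 0 ω)) 2 (law μ n d) →
        Exploration D A f → SumOnRows μ ρ D f) ∧
      -- the class contains the polynomials in all entries whose coefficients are arbitrary
      -- bounded functions of few rows
      (∀ (m : ℕ) (S : Fin m → Finset (Fin n)) (F : Fin m → (Coord n d → ℝ) → ℝ)
        (p : Fin m → MvPolynomial (Coord n d) ℝ),
        (∀ j, Measurable (F j) ∧ OnRows (S j) (F j) ∧ ∃ B, ∀ y, |F j y| ≤ B) →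
        (∀ j, (S j).card + (p j).totalDegree ≤ D) →
        SumOnRows μ ρ D fun y => ∑ j, F j y * MvPolynomial.eval y (p j)) := by
  classical
  obtain ⟨c, C, hc, hC, key⟩ := row_ineq L d lam h0 h1
  refine ⟨c, C, min (1 / (4 * C)) (1 / 4), hc, lt_min (by positivity) (by norm_num), ?_⟩
  intro G _ _ _ _ _ _ μ _ _ ρ hρ n D hD
  have : IsProbabilityMeasure (law μ n d) := by
    unfold law
    infer_instance
  have main : ∀ f, SumOnRows μ ρ D f → Integrable (fun ω => f (data ρ lam ω)) (law μ n d) ∧
      ((∫ ω, f (data ρ lam ω) ∂(law μ n d)) - ∫ ω, f (data ρ 0 ω) ∂(law μ n d)) ^ 2 ≤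
        C * Var[fun ω => f (data ρ 0 ω); law μ n d] := by
    intro f hf
    have hfm := hf.measurable
    have hf2 := hf.memLp
    have hfz : Measurable fun z : Coord n d → ℝ => f (symm z) := hfm.comp measurable_symm
    have hf2z := (memLp_null_iff μ ρ hfm).1 hf2
    have hsm : Measurable fun g : Fin n → G => shift ρ lam g :=
      measurable_pi_lambda _ fun c => measurable_shift ρ hρ.1 lam c
    have hint := integrable_shift (P := Measure.pi fun _ : Fin n => μ) hsm
      (fun g c => abs_shift_le ρ lam g c) hfz hf2z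
    have hint2 : Integrable (fun ω => f (data ρ lam ω)) (law μ n d) := by
      simp_rw [data_symm]
      exact hint
    refine ⟨hint2, ?_⟩
    obtain ⟨F, hF, hsum⟩ := hf
    set F' : Finset (Fin n) → (Coord n d → ℝ) → ℝ := fun S z => F S (symm z) with hF'
    have hFsum : ∀ z, ∑ S with S.card ≤ D, F' S z = f (symm z) := fun z => (hsum _).symm
    have hF'm : ∀ S, Measurable (F' S) := fun S => (hF S).1.comp measurable_symm
    have hF'loc : ∀ S z z', (∀ c, pr c ∈ EK S → z c = z' c) → F' S z = F' S z' := by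
      intro S z z' h
      have h' : ∀ c : Coord n d, c.2.1.1 ∈ S ∨ c.2.2.1.1 ∈ S → z c = z' c := fun c hc =>
        h c (Finset.mem_filter.2 ⟨Finset.mem_univ _, hc⟩)
      refine (hF S).2.1 _ _ fun c hc => ?_
      simp only [Pool.Agent.H70.SS.symm]
      rw [h' ⟨c.1, c.2.1, c.2.2.1, true⟩ hc, h' ⟨c.1, c.2.2.1, c.2.1, true⟩ hc.symm,
        h' ⟨c.1, c.2.1, c.2.2.1, false⟩ hc, h' ⟨c.1, c.2.2.1, c.2.1, false⟩ hc.symm]
    have hF'2 : ∀ S, MemLp (F' S) 2 (gam (Coord n d)) := fun S =>
      (memLp_null_iff μ ρ (hF S).1).1 (hF S).2.2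
    have h2 := key G μ ρ hρ n D hD F' hF'm hF'loc hF'2
    simp_rw [hFsum] at h2
    have e1 : ∫ ω, f (data ρ lam ω) ∂(law μ n d) = ∫ g, ∫ z, f (symm (shift ρ lam g + z))
        ∂(gam (Coord n d)) ∂(Measure.pi fun _ : Fin n => μ) := by
      simp_rw [data_symm]
      exact integral_prod _ hint
    have e2 := null_eq μ ρ f (n := n)
    have e3 : ∫ ω, f (data ρ 0 ω) ^ 2 ∂(law μ n d) =
        ∫ z, f (symm z) ^ 2 ∂(gam (Coord n d)) := null_eq μ ρ (fun y => f y ^ 2) (n := n)
    rw [e1, variance_eq_sub hf2]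
    simp only [Pi.pow_apply]
    rw [e3, e2]
    exact h2
  refine ⟨main, ?_, fun f A hf hf2 hA => SumOnRows.exploration hf hf2 hA, ?_⟩
  · intro φ hφ hφ0 hφ1
    obtain ⟨-, h2⟩ := main φ hφ
    have hφm := hφ.measurable
    have hd : ∀ l, Measurable fun ω : (Fin n → G) × (Coord n d → ℝ) => data ρ l ω := by
      intro l
      simp_rw [data_symm]
      refine measurable_symm.comp (Measurable.add ?_ measurable_snd)
      exact (measurable_pi_lambda _ fun c => measurable_shift ρ hρ.1 l c).comp measurable_fst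
    have hi : ∀ l, Integrable (fun ω => φ (data ρ l ω)) (law μ n d) := fun l =>
      integrable_of_test _ _ (hφm.comp (hd l)) (fun _ => hφ0 _) fun _ => hφ1 _
    set P0 := ∫ ω, φ (data ρ 0 ω) ∂(law μ n d) with hP0
    set P1 := ∫ ω, φ (data ρ lam ω) ∂(law μ n d) with hP1
    have hP0nn : 0 ≤ P0 := integral_nonneg fun _ => hφ0 _
    have hP11 : P1 ≤ 1 := by
      calc P1 ≤ ∫ _ω, (1 : ℝ) ∂(law μ n d) :=
            integral_mono (hi lam) (integrable_const _) fun _ => hφ1 _
        _ = 1 := by simp
    have hvar : Var[fun ω => φ (data ρ 0 ω); law μ n d] ≤ P0 := by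
      rw [variance_eq_sub hφ.memLp]
      have h3 : ∫ ω, ((fun ω => φ (data ρ 0 ω)) ^ 2) ω ∂(law μ n d) ≤ P0 := by
        refine integral_mono ?_ (hi 0) fun ω => ?_
        · exact (memLp_two_iff_integrable_sq (hφm.comp (hd 0)).aestronglyMeasurable).1 hφ.memLp
        · show φ (data ρ 0 ω) ^ 2 ≤ φ (data ρ 0 ω)
          have := hφ0 (data ρ 0 ω)
          have := hφ1 (data ρ 0 ω)
          nlinarith
      have h4 : 0 ≤ (∫ ω, φ (data ρ 0 ω) ∂(law μ n d)) ^ 2 := sq_nonneg _
      linarith
    have h3 : (P1 - P0) ^ 2 ≤ P0 * C := by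
      calc (P1 - P0) ^ 2 ≤ C * Var[fun ω => φ (data ρ 0 ω); law μ n d] := h2
        _ ≤ C * P0 := mul_le_mul_of_nonneg_left hvar hC.le
        _ = P0 * C := mul_comm _ _
    by_cases hb : P0 ≤ 1 / 4
    · refine final_ineq hP0nn hP11 hC hb ?_
      have h4 : P1 - P0 ≤ Real.sqrt (P0 * C) := Real.le_sqrt_of_sq_le h3
      linarith
    · refine (min_le_right _ _).trans ?_
      push Not at hb
      linarith
  · intro m S F p hF hp
    refine SumOnRows.sum _ fun j _ => ?_
    obtain ⟨hFm, hloc, B, hB⟩ := hF j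
    exact SumOnRows.mul_poly hFm hloc hB (p j) (hp j)

end Pool.Agent.Results.MP_634cec_lc.FewRows
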