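import Pool.Agent.H70.SS.Fin

open MeasureTheory ProbabilityTheory
open scoped BigOperators
open Pool.Agent.Results.MP_634cec_lc.LinearDegree
open Pool.Agent.H70.SS (InvariantOff)

namespace Pool.Agent.Results.MP_634cec_lc.SearchPlusSpectral

/-- **Exhaustive search on a small linear number of vertices combined with arbitrary rotation
invariant information does not beat the spectral threshold.** -/
theorem result (L : ℕ) (d : Fin L → ℕ) (lam θ : ℝ) (h0 : 0 ≤ lam) (hθ0 : 0 ≤ θ) (hθ1 : θ < 1)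
    (hl : lam ^ 2 * (1 + 2 * (∑ k, (d k : ℝ) ^ 2) * θ) < 1) :
    ∃ ε : ℝ, 0 < ε ∧ ∃ N : ℕ, ∀ (G : Type) [Group G] [TopologicalSpace G] [IsTopologicalGroup G]
      [CompactSpace G] [MeasurableSpace G] [BorelSpace G] (μ : Measure G) [μ.IsHaarMeasure]
      [IsProbabilityMeasure μ] (ρ : ∀ k : Fin L, G →* Matrix.unitaryGroup (Fin (d k)) ℂ),
      Admissible ρ → ∀ n : ℕ, N ≤ n → ∀ S : Finset (Fin n), (S.card : ℝ) ≤ θ * n →
      ∀ φ : (Coord n d → ℝ) → ℝ, Measurable φ → (∀ y, 0 ≤ φ y) → (∀ y, φ y ≤ 1) →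
        InvariantOff S φ →
        ε ≤ (∫ ω, φ (data ρ 0 ω) ∂(law μ n d)) + (1 - ∫ ω, φ (data ρ lam ω) ∂(law μ n d)) :=
  Pool.Agent.H70.SS.main_bound L d lam θ h0 hθ0 hθ1 hl

end Pool.Agent.Results.MP_634cec_lc.SearchPlusSpectral
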