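import Pool.Agent.H69.SR.Main

open MeasureTheory ProbabilityTheory
open scoped BigOperators
open Pool.Agent.Results.MP_634cec_lc.LinearDegree
open H69.SR (Proc Accepts mat)

namespace Pool.Agent.Results.MP_634cec_lc.SeedsRounds

/-- **Exhaustive search on `C (1 - lam)^2 n / L` seed vertices followed by a bounded number of message
passing rounds detects below the spectral threshold.** -/
theorem result (lam0 : ℝ) (h0 : 0 < lam0) : ∃ (L0 : ℕ) (C : ℝ), 0 < C ∧ ∀ L ≥ L0, ∀ lam : ℝ,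
    lam0 ≤ lam → lam < 1 → ∃ P : Set (Proc L), P.Finite ∧
      (∀ p ∈ P, p.N = 100 * L ^ 2 + 1 ∧ ∀ t k, Continuous (p.Φ t k)) ∧ ∃ K : ℝ, ∀ n : ℕ, 1 ≤ n →
      ∀ J : Finset (Fin n), C * (1 - lam) ^ 2 / L * n ≤ J.card →
      ∀ (G : Type) [Group G] (ρ : ∀ _ : Fin L, G →* Matrix.unitaryGroup (Fin 1) ℂ) (χ : G → ℂ),
        (∀ k g, (ρ k g : Matrix (Fin 1) (Fin 1) ℂ) 0 0 = χ g ^ ((k : ℕ) + 1)) → ∀ g : Fin n → G,
        (Measure.pi fun _ : Coord n (fun _ : Fin L => 1) => gaussianReal 0 1)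
          {z | Accepts P (lam * L * n / 2) J (mat (obs (d := fun _ : Fin L => 1) ρ 0 g z))} ≤
            ENNReal.ofReal (K / n) ∧
        (Measure.pi fun _ : Coord n (fun _ : Fin L => 1) => gaussianReal 0 1)
          {z | ¬ Accepts P (lam * L * n / 2) J (mat (obs (d := fun _ : Fin L => 1) ρ lam g z))} ≤
            ENNReal.ofReal (K / n) :=
  H69.SR.seeds_rounds lam0 h0

end Pool.Agent.Results.MP_634cec_lc.SeedsRounds
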